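import Mathlib.Algebra.Order.Group.Nat
import Mathlib.Algebra.Notation.Lemmas
import Mathlib.Data.Nat.Bitwise

/-!
A small checker for clausal refutations with crossing constraints, on bit masks.
-/

set_option autoImplicit false

namespace Pool.Agent.MP_8fe08c_co.H76

/-- Binary trees with numbers at the leaves. -/
inductive Tr : Type
  | lf : ℕ → Tr
  | nd : Tr → Tr → Tr

/-- Lookup by the binary digits of the key. -/
noncomputable def Tr.get (t : Tr) : ℕ → ℕ :=
  Tr.rec (fun v _ => v)
    (fun _ _ gl gr k => cond (Nat.beq (Nat.land k 1) 0) (gl (Nat.shiftRight k 1))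
      (gr (Nat.shiftRight k 1))) t

/-- Bit test. -/
def tb (z l : ℕ) : Bool := Nat.beq (Nat.land (Nat.shiftRight z l) 1) 1

theorem tb_eq (z l : ℕ) : tb z l = z.testBit l := by
  have h : Nat.land (Nat.shiftRight z l) 1 = (z >>> l) % 2 := Nat.and_one_is_mod _
  rw [tb, h, Nat.testBit, Nat.one_and_eq_mod_two]
  rcases Nat.mod_two_eq_zero_or_one (z >>> l) with h | h <;> rw [h] <;> rfl

/-- Evaluate a number before passing it on. -/
noncomputable def force {β : Type} (x : ℕ) (k : ℕ → β) : β :=
  Nat.rec (k 0) (fun m _ => k (Nat.succ m)) x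

theorem force_eq {β : Type} (x : ℕ) (k : ℕ → β) : force x k = k x := by
  cases x <;> rfl

/-- The mask of four bit positions packed in base `2 ^ 13`. -/
def m4 (s : ℕ) : ℕ :=
  Nat.lor (Nat.lor (Nat.shiftLeft 1 (Nat.land s 8191))
      (Nat.shiftLeft 1 (Nat.land (Nat.shiftRight s 13) 8191)))
      (Nat.lor (Nat.shiftLeft 1 (Nat.land (Nat.shiftRight s 26) 8191))
      (Nat.shiftLeft 1 (Nat.land (Nat.shiftRight s 39) 8191)))

/-- The mask of eight bit positions packed in base `2 ^ 13`. -/
def m8 (s : ℕ) : ℕ :=
  Nat.lor (Nat.lor (Nat.lor (Nat.shiftLeft 1 (Nat.land s 8191))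
      (Nat.shiftLeft 1 (Nat.land (Nat.shiftRight s 13) 8191)))
      (Nat.lor (Nat.shiftLeft 1 (Nat.land (Nat.shiftRight s 26) 8191))
      (Nat.shiftLeft 1 (Nat.land (Nat.shiftRight s 39) 8191))))
      (Nat.lor (Nat.lor (Nat.shiftLeft 1 (Nat.land (Nat.shiftRight s 52) 8191))
      (Nat.shiftLeft 1 (Nat.land (Nat.shiftRight s 65) 8191)))
      (Nat.lor (Nat.shiftLeft 1 (Nat.land (Nat.shiftRight s 78) 8191))
      (Nat.shiftLeft 1 (Nat.land (Nat.shiftRight s 91) 8191))))

/-- The mask of sixteen bit positions packed in base `2 ^ 13`. -/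
def m16 (s : ℕ) : ℕ :=
  Nat.lor (Nat.lor (Nat.lor (Nat.lor (Nat.shiftLeft 1 (Nat.land s 8191))
      (Nat.shiftLeft 1 (Nat.land (Nat.shiftRight s 13) 8191)))
      (Nat.lor (Nat.shiftLeft 1 (Nat.land (Nat.shiftRight s 26) 8191))
      (Nat.shiftLeft 1 (Nat.land (Nat.shiftRight s 39) 8191))))
      (Nat.lor (Nat.lor (Nat.shiftLeft 1 (Nat.land (Nat.shiftRight s 52) 8191))
      (Nat.shiftLeft 1 (Nat.land (Nat.shiftRight s 65) 8191)))
      (Nat.lor (Nat.shiftLeft 1 (Nat.land (Nat.shiftRight s 78) 8191))
      (Nat.shiftLeft 1 (Nat.land (Nat.shiftRight s 91) 8191)))))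
      (Nat.lor (Nat.lor (Nat.lor (Nat.shiftLeft 1 (Nat.land (Nat.shiftRight s 104) 8191))
      (Nat.shiftLeft 1 (Nat.land (Nat.shiftRight s 117) 8191)))
      (Nat.lor (Nat.shiftLeft 1 (Nat.land (Nat.shiftRight s 130) 8191))
      (Nat.shiftLeft 1 (Nat.land (Nat.shiftRight s 143) 8191))))
      (Nat.lor (Nat.lor (Nat.shiftLeft 1 (Nat.land (Nat.shiftRight s 156) 8191))
      (Nat.shiftLeft 1 (Nat.land (Nat.shiftRight s 169) 8191)))
      (Nat.lor (Nat.shiftLeft 1 (Nat.land (Nat.shiftRight s 182) 8191))
      (Nat.shiftLeft 1 (Nat.land (Nat.shiftRight s 195) 8191)))))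

/-- The mask of thirty-two bit positions packed in base `2 ^ 13`. -/
def m32 (s : ℕ) : ℕ := Nat.lor (m16 s) (m16 (Nat.shiftRight s 208))

/-- The bit of the opposite literal. -/
def flipBit (q : ℕ) : ℕ := cond (Nat.beq (Nat.mod q 3) 1) (Nat.shiftLeft q 1) (Nat.shiftRight q 1)

/-- Unit propagation along packed hints. -/
noncomputable def prop (ct xt : Tr) (nx i fuel : ℕ) : ℕ → ℕ → Bool :=
  Nat.rec (fun hs z => tb z (Nat.mul 2 hs) && tb z (Nat.succ (Nat.mul 2 hs)))
    (fun _ r hs z =>
      force (Nat.land hs 65535) fun h => force (Nat.shiftRight hs 16) fun hs' =>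
        cond (Nat.blt h nx)
          (cond (tb z (Nat.succ (Nat.mul 2 h))) (force (Nat.lor z (xt.get h)) (r hs')) false)
          (cond (Nat.blt (Nat.sub h nx) i)
            (force (ct.get (Nat.sub h nx)) fun m => force (Nat.xor m (Nat.land m z)) fun q =>
              cond (Nat.beq q 0) true
                (cond (Nat.beq (Nat.land q (Nat.sub q 1)) 0)
                  (force (Nat.lor z (flipBit q)) (r hs')) false))
            false)) fuel

/-- Check of consecutive lemmas, starting with number `i`. -/
noncomputable def lemmas (ct xt : Tr) (nx : ℕ) (l : List ℕ) : ℕ → Bool :=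
  List.rec (fun _ => true)
    (fun h _ r i => force i fun i =>
      prop ct xt nx i (Nat.land h 65535) (Nat.shiftRight h 16) (ct.get i) && r (Nat.succ i)) l

/-- Truth of a literal: `2 e` says `A e`, `2 e + 1` says `¬ A e`. -/
def lit (A : ℕ → Prop) (l : ℕ) : Prop := if l % 2 = 0 then A (l / 2) else ¬ A (l / 2)

/-- The clause with mask `m` holds. -/
def Holds (A : ℕ → Prop) (m : ℕ) : Prop := ∃ l, m.testBit l ∧ lit A l

/-- All literals of the mask are false. -/
def AllFalse (A : ℕ → Prop) (z : ℕ) : Prop := ∀ l, z.testBit l → ¬ lit A l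

theorem lit_even (A : ℕ → Prop) (e : ℕ) : lit A (2 * e) ↔ A e := by
  simp [lit]

theorem lit_odd (A : ℕ → Prop) (e : ℕ) : lit A (2 * e + 1) ↔ ¬ A e := by
  have h1 : (2 * e + 1) % 2 = 1 := by omega
  have h2 : (2 * e + 1) / 2 = e := by omega
  simp [lit, h1, h2]

theorem lit_xor (A : ℕ → Prop) (k : ℕ) (h : lit A k) : ¬ lit A (k ^^^ 1) := by
  rcases Nat.even_or_odd' k with ⟨e, rfl | rfl⟩
  · have : (2 * e) ^^^ 1 = 2 * e + 1 := Nat.xor_one_of_even (by simp)
    rw [this, lit_odd]
    exact fun h' => h' ((lit_even A e).1 h)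
  · have : (2 * e + 1) ^^^ 1 = 2 * e := by
      rw [Nat.xor_one_of_odd (by simp)]; simp
    rw [this, lit_even]
    exact (lit_odd A e).1 h

theorem AllFalse.lor {A : ℕ → Prop} {z w : ℕ} (hz : AllFalse A z) (hw : AllFalse A w) :
    AllFalse A (Nat.lor z w) := by
  intro l hl
  have : (z ||| w).testBit l = true := hl
  rw [Nat.testBit_or, Bool.or_eq_true] at this
  rcases this with h | h
  · exact hz l h
  · exact hw l h

theorem flipBit_pow (k : ℕ) : flipBit (2 ^ k) = 2 ^ (k ^^^ 1) := by
  have h4 : ∀ e : ℕ, 2 ^ (2 * e) % 3 = 1 := fun e => by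
    rw [pow_mul, Nat.pow_mod]
    simp
  rcases Nat.even_or_odd' k with ⟨e, rfl | rfl⟩
  · have h1 : (2 * e) ^^^ 1 = 2 * e + 1 := Nat.xor_one_of_even (by simp)
    have h2 : Nat.mod (2 ^ (2 * e)) 3 = 1 := h4 e
    rw [flipBit, h1, h2]
    show 2 ^ (2 * e) <<< 1 = _
    rw [Nat.shiftLeft_eq, ← pow_add]
  · have h1 : (2 * e + 1) ^^^ 1 = 2 * e := by
      rw [Nat.xor_one_of_odd (by simp)]; simp
    have h2 : Nat.mod (2 ^ (2 * e + 1)) 3 = 2 := by
      show 2 ^ (2 * e + 1) % 3 = 2
      have := h4 e
      rw [pow_succ]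
      omega
    rw [flipBit, h1, h2]
    show 2 ^ (2 * e + 1) >>> 1 = _
    rw [Nat.shiftRight_eq_div_pow, pow_succ]
    simp

theorem testBit_pow_eq (k l : ℕ) (h : (2 ^ k).testBit l = true) : l = k := by
  rw [Nat.testBit_two_pow] at h
  exact (of_decide_eq_true h).symm

theorem prop_sound {A : ℕ → Prop} {ct xt : Tr} {nx i : ℕ}
    (hx : ∀ e < nx, A e → AllFalse A (xt.get e)) (hc : ∀ j < i, Holds A (ct.get j))
    (fuel : ℕ) : ∀ hs z, prop ct xt nx i fuel hs z = true → ¬ AllFalse A z := by
  induction fuel with
  | zero =>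
    intro hs z h hz
    have h' : (tb z (2 * hs) && tb z (2 * hs + 1)) = true := h
    rw [Bool.and_eq_true, tb_eq, tb_eq] at h'
    have h1 := hz _ h'.1
    have h2 := hz _ h'.2
    rw [lit_even] at h1
    rw [lit_odd] at h2
    exact h2 h1
  | succ fuel ih =>
    intro hs z h hz
    have h' : (force (Nat.land hs 65535) fun h => force (Nat.shiftRight hs 16) fun hs' =>
        cond (Nat.blt h nx)
          (cond (tb z (2 * h + 1)) (force (Nat.lor z (xt.get h)) (prop ct xt nx i fuel hs')) false)
          (cond (Nat.blt (Nat.sub h nx) i)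
            (force (ct.get (Nat.sub h nx)) fun m => force (Nat.xor m (Nat.land m z)) fun q =>
              cond (Nat.beq q 0) true
                (cond (Nat.beq (Nat.land q (Nat.sub q 1)) 0)
                  (force (Nat.lor z (flipBit q)) (prop ct xt nx i fuel hs')) false))
            false)) = true := h
    simp only [force_eq] at h'
    generalize Nat.land hs 65535 = k at h'
    generalize Nat.shiftRight hs 16 = hs' at h'
    cases h1 : Nat.blt k nx with
    | true =>
      rw [h1, cond_true] at h'
      cases h2 : tb z (2 * k + 1) with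
      | false => rw [h2] at h'; exact absurd h' (by simp)
      | true =>
        rw [h2, cond_true] at h'
        rw [tb_eq] at h2
        have h3 := hz _ h2
        rw [lit_odd, not_not] at h3
        exact ih _ _ h' (hz.lor (hx k (by simpa using h1) h3))
    | false =>
      rw [h1, cond_false] at h'
      cases h2 : Nat.blt (Nat.sub k nx) i with
      | false => rw [h2] at h'; exact absurd h' (by simp)
      | true =>
        rw [h2, cond_true] at h'
        obtain ⟨l, hl, hlit⟩ := hc _ (show Nat.sub k nx < i by simpa using h2)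
        generalize ct.get (Nat.sub k nx) = m at h' hl
        have hq : (Nat.xor m (Nat.land m z)).testBit l = true := by
          show (m ^^^ (m &&& z)).testBit l = true
          rw [Nat.testBit_xor, Nat.testBit_and, hl]
          cases h3 : z.testBit l with
          | true => exact absurd hlit (hz l h3)
          | false => rfl
        generalize Nat.xor m (Nat.land m z) = q at h' hq
        cases h3 : Nat.beq q 0 with
        | true =>
          rw [Nat.eq_of_beq_eq_true h3] at hq
          simp at hq
        | false =>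
          rw [h3, cond_false] at h'
          cases h4 : Nat.beq (Nat.land q (Nat.sub q 1)) 0 with
          | false => rw [h4] at h'; exact absurd h' (by simp)
          | true =>
            rw [h4, cond_true] at h'
            obtain ⟨r, rfl⟩ := (Nat.and_sub_one_eq_zero_iff_isPowerOfTwo
              (Nat.ne_of_beq_eq_false h3)).1 (Nat.eq_of_beq_eq_true h4)
            have h5 := testBit_pow_eq _ _ hq
            refine ih _ _ h' (hz.lor fun l' hl' => ?_)
            rw [flipBit_pow] at hl'
            rw [testBit_pow_eq _ _ hl', ← h5]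
            exact lit_xor A l hlit

theorem lemmas_sound {A : ℕ → Prop} {ct xt : Tr} {nx : ℕ}
    (hx : ∀ e < nx, A e → AllFalse A (xt.get e)) (l : List ℕ) :
    ∀ i, (∀ j < i, Holds A (ct.get j)) → lemmas ct xt nx l i = true →
      ∀ j < i + l.length, Holds A (ct.get j) := by
  induction l with
  | nil => intro i hi _ j hj; exact hi j hj
  | cons h t ih =>
    intro i hi hl
    have h' : (force i fun i => prop ct xt nx i (Nat.land h 65535) (Nat.shiftRight h 16)
        (ct.get i) && lemmas ct xt nx t (i + 1)) = true := hl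
    rw [force_eq, Bool.and_eq_true] at h'
    have h1 : Holds A (ct.get i) := by
      by_contra hn
      exact prop_sound hx hi _ _ _ h'.1 fun l hl hlit => hn ⟨l, hl, hlit⟩
    intro j hj
    refine ih (i + 1) (fun j hj => ?_) h'.2 j (by simp at hj; omega)
    rcases Nat.lt_succ_iff_lt_or_eq.1 hj with h | rfl
    · exact hi j h
    · exact h1

/-- Bounded conjunction. -/
noncomputable def allB (n : ℕ) (f : ℕ → Bool) : Bool :=
  Nat.rec true (fun m r => force m f && r) n

theorem allB_sound {n : ℕ} {f : ℕ → Bool} (h : allB n f = true) : ∀ i < n, f i = true := by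
  induction n with
  | zero => intro i hi; omega
  | succ n ih =>
    have h' : (force n f && allB n f) = true := h
    rw [force_eq, Bool.and_eq_true] at h'
    intro i hi
    rcases Nat.lt_succ_iff_lt_or_eq.1 hi with h | rfl
    · exact ih h'.2 i h
    · exact h'.1

/-- Field number `i` of width 32 bits. -/
def fld (s i : ℕ) : ℕ := Nat.land (Nat.shiftRight s (Nat.mul 32 i)) 4294967295

/-- Absolute difference. -/
def adiff (a b : ℕ) : ℕ := Nat.add (Nat.sub a b) (Nat.sub b a)

/-- Squared distance of points `a`, `b`. -/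
noncomputable def sqd (xs ys a b : ℕ) : ℕ :=
  force (adiff (fld xs a) (fld xs b)) fun p => force (adiff (fld ys a) (fld ys b)) fun q =>
    Nat.add (Nat.mul p p) (Nat.mul q q)

/-- Point `c` is strictly to the left of the line from `a` to `b`. -/
noncomputable def left (xs ys a b c : ℕ) : Bool :=
  force (fld xs a) fun xa => force (fld ys a) fun ya => force (fld xs b) fun xb =>
    force (fld ys b) fun yb => force (fld xs c) fun xc => force (fld ys c) fun yc =>
      Nat.blt (Nat.add (Nat.add (Nat.mul xa yc) (Nat.mul xb ya)) (Nat.mul xc yb))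
        (Nat.add (Nat.add (Nat.mul xa yb) (Nat.mul xb yc)) (Nat.mul xc ya))

/-- The table `lt` of left sides is right, for the lines through `a`. -/
noncomputable def checkLeft (n xs ys : ℕ) (lt : Tr) (a : ℕ) : Bool :=
  allB n fun b => force (lt.get (Nat.add (Nat.mul a n) b)) fun m =>
    allB n fun c => cond (tb m c) (left xs ys a b c) true

/-- The crossing mask of the edge `a b` is right. -/
noncomputable def checkCross (n : ℕ) (lt xt : Tr) (a : ℕ) : Bool :=
  allB n fun b => force (xt.get (Nat.add (Nat.mul a n) b)) fun m =>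
    cond (Nat.beq m 0) true
      (force (lt.get (Nat.add (Nat.mul a n) b)) fun lab =>
        force (lt.get (Nat.add (Nat.mul b n) a)) fun lba =>
          Nat.blt m (Nat.shiftLeft 1 (Nat.mul 2 (Nat.mul n n))) &&
          allB n fun c => force (Nat.land (Nat.shiftRight m (Nat.mul 2 (Nat.mul c n)))
              (Nat.pred (Nat.shiftLeft 1 (Nat.mul 2 n)))) fun row =>
            cond (Nat.beq row 0) true
              (allB n fun d => !tb row (Nat.succ (Nat.mul 2 d)) &&
                cond (tb row (Nat.mul 2 d))
                  (cond (tb lab c)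
                    (tb lba d && tb (lt.get (Nat.add (Nat.mul c n) d)) b &&
                      tb (lt.get (Nat.add (Nat.mul d n) c)) a)
                    (tb lba c && tb lab d && tb (lt.get (Nat.add (Nat.mul c n) d)) a &&
                      tb (lt.get (Nat.add (Nat.mul d n) c)) b))
                  true))

/-- The rows of integer lower bounds for distances are right. -/
noncomputable def checkW (n xs ys : ℕ) (wt : Tr) : Bool :=
  allB n fun a => allB a fun b => force (fld (wt.get a) b) fun w =>
    Nat.blt 0 w && Nat.ble (Nat.mul w w) (sqd xs ys a b)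

/-- The path clause number `j` is justified by the potential `pt.get j`, whose fields `n` and
`n + 1` name the pair of points. -/
noncomputable def checkPath (n xs ys num den : ℕ) (wt ct pt : Tr) (j : ℕ) : Bool :=
  force (ct.get j) fun m => force (pt.get j) fun p =>
    force (fld p n) fun u => force (fld p (Nat.succ n)) fun v =>
      Nat.blt u v && Nat.blt v n &&
      Nat.ble (Nat.mul (Nat.mul num num) (sqd xs ys u v))
        (Nat.mul (Nat.mul den den)
          (Nat.mul (Nat.sub (fld p v) (fld p u)) (Nat.sub (fld p v) (fld p u)))) &&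
      allB n fun a => force (wt.get a) fun w => force (fld p a) fun pa =>
        allB a fun b => cond (Nat.ble (adiff pa (fld p b)) (fld w b)) true
          (tb m (Nat.mul 2 (Nat.add (Nat.mul b n) a)))

end Pool.Agent.MP_8fe08c_co.H76
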