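import Pool.Agent.MP_8fe08c_co.h76.Data

set_option autoImplicit false
set_option maxRecDepth 100000

namespace Pool.Agent.MP_8fe08c_co.H76

theorem h_w : checkW 42 xs ys wt = true := by decide +kernel

theorem h_l : allB 42 (checkLeft 42 xs ys lt) = true := by decide +kernel

theorem h_x : allB 42 (checkCross 42 lt xt) = true := by decide +kernel

end Pool.Agent.MP_8fe08c_co.H76
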